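import Pool.Agent.Lib.CQ88.Final

open AlgebraicGeometry CategoryTheory Pool.Agent.Lib.CL88 Pool.Agent.Lib.CQ88

/-- Smooth projective complex curves of genus `g` exist, and for each of them the `(2, d)` piece
of the spherical Hall Lie algebra has dimension `g - 1`, not `g = A_{g,2,d}(0)`. -/
theorem Pool.Agent.Results.MP_cc3443_ag.Curves.result (g : ℕ) (h1 : 1 ≤ g) :
    (∃ (C : Scheme.{0}) (s : C ⟶ Spec (.of ℂ)), IsCurve s ∧ genus s = g) ∧
    ∀ (C : Scheme.{0}) (s : C ⟶ Spec (.of ℂ)), IsCurve s → genus s = g →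
      IsSub s (sph s) ∧ ∀ d : ℤ, Module.rank ℂ (sphLie s (2, d)) + 1 = g :=
  ⟨exists_genus g, fun _ _ h hg => rank_curve h1 h hg⟩
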