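import Pool.Agent.Lib.CC61.All

open Pool.Agent.Lib.MP_cc3443_ag Pool.Agent.Lib.CC61

/-- For the Hall algebra generated by the constant functions on all semistable strata of a complex
curve of genus at least two, and for every set between one of its graded pieces and the closure
of that piece, the primitive members span a space of dimension `A_{g,r,d}(0)`. -/
theorem Pool.Agent.Results.MP_cc3443_ag.Saturated.result (g : ℕ) (hg : 2 ≤ g) (K : Type) [Field K]
    [Algebra ℂ K] [Algebra (RatFunc ℂ) K] [IsScalarTower ℂ (RatFunc ℂ) K]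
    [FiniteDimensional (RatFunc ℂ) K] (hK : HasGenus K g) (r : ℕ) (d : ℤ) (hd : r = 0 → 0 < d)
    (H : Set (Fn K)) (h1 : ∀ f, SphHN (r, d) f → f ∈ H)
    (h2 : ∀ f ∈ H, ∀ s : Finset (Σ N, Lat K N × Lat K N), ∃ f', SphHN (r, d) f' ∧
      ∀ p ∈ s, f p.1 p.2.1 p.2.2 = f' p.1 p.2.1 p.2.2) :
    ∃ n : ℕ, Module.rank ℂ (primSpan H) = n ∧ (n : ℂ) = A0 g r d :=
  all_set K g hg hK r d hd H h1 h2
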